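import Pool.Agent.W798.SP.Stm

/-!
# Project SPX: the Cauchy-Schwarz bounds for the multiplicative energy (part CS, by helper215)
-/

set_option autoImplicit false

open Finset
open scoped Classical Pointwise

namespace Pool.Agent.W215.SP

open Pool.Agent.W798.SP

/-- the pairs with a given ratio -/
noncomputable def Pl (A : Finset ℝ) (l : ℝ) : Finset (ℝ × ℝ) :=
  (A ×ˢ A).filter (fun q => q.2 / q.1 = l)

lemma card_Pl (A : Finset ℝ) (hA : ∀ x ∈ A, 0 < x) (l : ℝ) : (Pl A l).card = (fib A l).card := by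
  symm
  refine Finset.card_bij (fun x _ => (x, l * x)) ?_ ?_ ?_
  · intro x hx
    unfold fib at hx
    rw [mem_filter] at hx
    unfold Pl
    rw [mem_filter, mem_product]
    refine ⟨⟨hx.1, hx.2⟩, ?_⟩
    have := (hA x hx.1).ne'
    simp only
    field_simp
  · intro x _ y _ h
    exact (Prod.mk.inj h).1
  · intro q hq
    unfold Pl at hq
    rw [mem_filter, mem_product] at hq
    obtain ⟨⟨h1, h2⟩, h3⟩ := hq
    have h4 : l * q.1 = q.2 := by
      rw [← h3]
      have := (hA _ h1).ne'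
      field_simp
    refine ⟨q.1, ?_, ?_⟩
    · unfold fib
      rw [mem_filter]
      exact ⟨h1, by rw [h4]; exact h2⟩
    · rw [h4]

/-- sum of squares of the sizes of the fibres -/
lemma sum_sq (B : Finset (ℝ × ℝ)) (f : ℝ × ℝ → ℝ) (T : Finset ℝ) (hT : ∀ q ∈ B, f q ∈ T) :
    ∑ v ∈ T, (B.filter (fun q => f q = v)).card ^ 2 =
      ((B ×ˢ B).filter (fun w => f w.1 = f w.2)).card := by
  rw [Finset.card_eq_sum_card_fiberwise (f := fun w => f w.1) (t := T)]
  · refine Finset.sum_congr rfl fun v _ => ?_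
    rw [sq, ← Finset.card_product]
    congr 1
    ext w
    simp only [mem_filter, mem_product]
    constructor
    · rintro ⟨⟨h1, h2⟩, h3, h4⟩
      exact ⟨⟨⟨h1, h3⟩, by rw [h2, h4]⟩, h2⟩
    · rintro ⟨⟨⟨h1, h3⟩, h5⟩, h2⟩
      exact ⟨⟨h1, h2⟩, h3, by rw [← h5, h2]⟩
  · intro w hw
    rw [Finset.mem_coe, mem_filter, mem_product] at hw
    exact hT _ hw.1.1

theorem main : S_CS := by
  intro A hA
  have hT : ∀ q ∈ A ×ˢ A, q.2 / q.1 ∈ A / A := by
    intro q hq
    rw [mem_product] at hq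
    exact Finset.div_mem_div hq.2 hq.1
  have hM : ∀ q ∈ A ×ˢ A, q.1 * q.2 ∈ A * A := by
    intro q hq
    rw [mem_product] at hq
    exact Finset.mul_mem_mul hq.1 hq.2
  have h2 : ∑ l ∈ A / A, (fib A l).card = A.card ^ 2 := by
    rw [sq, ← Finset.card_product,
      Finset.card_eq_sum_card_fiberwise (f := fun q : ℝ × ℝ => q.2 / q.1) (t := A / A) hT]
    exact Finset.sum_congr rfl fun l _ => (card_Pl A hA l).symm
  refine ⟨?_, h2⟩
  -- the number of solutions
  have e1 : en A = (((A ×ˢ A) ×ˢ (A ×ˢ A)).filter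
      (fun w => w.1.2 / w.1.1 = w.2.2 / w.2.1)).card := by
    rw [← sum_sq (A ×ˢ A) (fun q => q.2 / q.1) (A / A) hT]
    unfold en
    exact Finset.sum_congr rfl fun l _ => by rw [← card_Pl A hA l]; rfl
  have e2 : (((A ×ˢ A) ×ˢ (A ×ˢ A)).filter (fun w => w.1.1 * w.1.2 = w.2.1 * w.2.2)).card =
      (((A ×ˢ A) ×ˢ (A ×ˢ A)).filter (fun w => w.1.2 / w.1.1 = w.2.2 / w.2.1)).card := by
    refine Finset.card_bij (fun w _ => ((w.2.1, w.1.1), (w.1.2, w.2.2))) ?_ ?_ ?_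
    · intro w hw
      simp only [mem_filter, mem_product] at hw ⊢
      obtain ⟨⟨⟨a1, a2⟩, a3, a4⟩, h⟩ := hw
      refine ⟨⟨⟨a3, a1⟩, a2, a4⟩, ?_⟩
      have b1 := (hA _ a3).ne'
      have b2 := (hA _ a2).ne'
      rw [div_eq_div_iff b1 b2, h]
      ring
    · intro w _ w' _ h
      simp only [Prod.mk.injEq] at h
      obtain ⟨⟨h1, h2⟩, h3, h4⟩ := h
      exact Prod.ext (Prod.ext h2 h3) (Prod.ext h1 h4)
    · intro w hw
      simp only [mem_filter, mem_product] at hw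
      obtain ⟨⟨⟨a1, a2⟩, a3, a4⟩, h⟩ := hw
      refine ⟨((w.1.2, w.2.1), (w.1.1, w.2.2)), ?_, rfl⟩
      simp only [mem_filter, mem_product]
      refine ⟨⟨⟨a2, a3⟩, a1, a4⟩, ?_⟩
      have b1 := (hA _ a1).ne'
      have b2 := (hA _ a3).ne'
      rw [div_eq_div_iff b1 b2] at h
      rw [h]
      ring
  have e3 : ∑ v ∈ A * A, ((A ×ˢ A).filter (fun q => q.1 * q.2 = v)).card ^ 2 = en A := by
    rw [sum_sq (A ×ˢ A) (fun q => q.1 * q.2) (A * A) hM, e1, e2]
  have e4 : ∑ v ∈ A * A, ((A ×ˢ A).filter (fun q => q.1 * q.2 = v)).card = A.card ^ 2 := by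
    rw [sq, ← Finset.card_product]
    exact (Finset.card_eq_sum_card_fiberwise (f := fun q : ℝ × ℝ => q.1 * q.2) (t := A * A) hM).symm
  calc A.card ^ 4 = (A.card ^ 2) ^ 2 := by ring
    _ = (∑ v ∈ A * A, ((A ×ˢ A).filter (fun q => q.1 * q.2 = v)).card) ^ 2 := by rw [e4]
    _ ≤ (A * A).card * ∑ v ∈ A * A, ((A ×ˢ A).filter (fun q => q.1 * q.2 = v)).card ^ 2 :=
        sq_sum_le_card_mul_sum_sq
    _ = (A * A).card * en A := by rw [e3]

end Pool.Agent.W215.SP
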